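import Pool.Agent.Lib.MP_9a7643_lc.BinSat

/-!
# MP_9a7643_lc: binary theories with free amalgamation lie below every theory with TP₂

`CTheory` is a complete theory in a countable language, `KLe` is Keisler's order, `HasTP2` the tree
property of the second kind. `IsBinaryFree T`: types of tuples are determined by the types of
pairs, and in `ℵ₁`-saturated models, for different `a 0, …, a (k-1)` and elements `c i ≠ a i` which
all have the same type there is one element `c₀` with `tp (c₀, a i) = tp (c i, a i)` for all `i`.
-/

open FirstOrder Filter Cardinal Pool.Agent.Lib.MP_9a7643_lc

namespace Pool.Agent.Results.MP_9a7643_lc.BinaryBelowTP2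

/-- Every binary theory with free amalgamation lies below every theory with `TP₂` in Keisler's
order. -/
theorem result (T S : CTheory) (hT : IsBinaryFree T) (hS : HasTP2 S) : KLe T S :=
  binary_le S hT hS

end Pool.Agent.Results.MP_9a7643_lc.BinaryBelowTP2
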