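import Pool.Agent.Lib.MP_9a7643_lc.Generic

/-!
# MP_9a7643_lc: the non-simple generic theories form one Keisler class

`CTheory` is a complete theory `T.T` in a countable language `T.L`; `IsGeneric T` says that `T` is
the theory of an existentially closed `L`-structure (a completion of the model companion of the
empty `L`-theory); `KLe` is Keisler's order; `HasTP2` is the tree property of the second kind;
`NonSimple` says that some formula has the tree property.
-/

open FirstOrder Filter Cardinal Pool.Agent.Lib.MP_9a7643_lc

namespace Pool.Agent.Results.MP_9a7643_lc.GenericOneClass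

/-- Let `T` be the theory of an existentially closed structure in a countable language `L`.
Then `T ⊴ S` for every theory `S` with `TP₂`. If `L` has a function symbol of arity at least two,
then `T` is non-simple and has `TP₂`, a regular ultrafilter saturates `T` iff it is good for
equality, and `T` is Keisler equivalent to every other such theory `T'`. -/
theorem result (T : CTheory) (hT : IsGeneric T) :
    (∀ S : CTheory, HasTP2 S → KLe T S) ∧
    ((∃ k, 2 ≤ k ∧ Nonempty (T.L.Functions k)) →
      NonSimple T ∧ HasTP2 T ∧
      (∀ T' : CTheory, IsGeneric T' → (∃ k, 2 ≤ k ∧ Nonempty (T'.L.Functions k)) →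
        KLe T T' ∧ KLe T' T) ∧
      (∀ (I : Type) [Infinite I] (D : Ultrafilter I), Regular D →
        ∀ (M : Type) [T.L.Structure M] [Nonempty M], M ⊨ T.T →
          (Saturated T.L (Pow D M) #I ↔ GoodEq D I))) := by
  refine ⟨fun S hS => generic_le T S hT hS, fun hk => ?_⟩
  have h2 : HasTP2 T := generic_tp2 T hT hk
  refine ⟨nonSimple_of_tp2 T h2, h2, fun T' hT' hk' => ?_, ?_⟩
  · exact ⟨generic_le T T' hT (generic_tp2 T' hT' hk'), generic_le T' T hT' h2⟩
  · intro I _ D hD M _ _ hM
    exact ⟨fun h => goodEq_of_tp2 h2 D hD M hM h,
      fun h => saturated_of_goodEq (rich_of_generic T hT M hM) T.countable D hD h⟩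

end Pool.Agent.Results.MP_9a7643_lc.GenericOneClass
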