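import Pool.Agent.Lib.MP_9a7643_lc.IncMain

/-!
# MP_9a7643_lc: generic incidence structures without `K_{m,n}` lie in the least class with `TP₂`

`Linc` is the language of incidence structures, `IsInc m n A` says that `A` is an incidence
structure (points, lines) in which no `m` different points lie on `n` different common lines,
`IsECInc m n M` that `M` is existentially closed in this class, and `incTheory M` is the complete
theory of `M`. `KLe` is Keisler's order, `HasTP2` the tree property of the second kind.
-/

open FirstOrder Filter Cardinal Pool.Agent.Lib.MP_9a7643_lc

namespace Pool.Agent.Results.MP_9a7643_lc.IncidenceClass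

/-- Let `m, n ≥ 2` and let `M` be an existentially closed incidence structure without `K_{m,n}`.
Then the theory of `M` is non-simple and has `TP₂`, it lies below every theory with `TP₂` in
Keisler's order, and a regular ultrafilter saturates it iff it is good for equality. -/
theorem result (m n : ℕ) (hm : 2 ≤ m) (hn : 2 ≤ n) (M : Type) [Linc.Structure M] [Nonempty M]
    (hM : IsECInc m n M) :
    NonSimple (incTheory M) ∧ HasTP2 (incTheory M) ∧
      (∀ S : CTheory, HasTP2 S → KLe (incTheory M) S) ∧
      ∀ (I : Type) [Infinite I] (D : Ultrafilter I), Regular D →
        ∀ (M' : Type) [Linc.Structure M'] [Nonempty M'], M' ⊨ Linc.completeTheory M →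
          (Saturated Linc (Pow D M') #I ↔ GoodEq D I) :=
  inc_main m n hm hn M hM

end Pool.Agent.Results.MP_9a7643_lc.IncidenceClass
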