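import Pool.Agent.Lib.MP_9a7643_lc.StMain

/-!
# MP_9a7643_lc: generic Steiner systems `S(t, t+1)` lie in the least class with `TP₂`

`Lst k` is the language with one relation symbol of arity `k`, `IsSt t k A` says that `A` is a
partial Steiner system `S(t, k)` (blocks of `k` elements, two different blocks have less than `t`
common elements), `IsECSt t k M` that `M` is existentially closed in this class, and
`stTheory k M` is the complete theory of `M`. `KLe` is Keisler's order, `HasTP2` the tree property
of the second kind.
-/

open FirstOrder Filter Cardinal Pool.Agent.Lib.MP_9a7643_lc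

namespace Pool.Agent.Results.MP_9a7643_lc.SteinerClass

/-- Let `t ≥ 2` and let `M` be an existentially closed partial Steiner system `S(t, t+1)` (so `M` is
a Steiner system). Then the theory of `M` is non-simple and has `TP₂`, it lies below every theory
with `TP₂` in Keisler's order, and a regular ultrafilter saturates it iff it is good for
equality. -/
theorem result (t : ℕ) (ht : 2 ≤ t) (M : Type) [(Lst (t + 1)).Structure M] [Nonempty M]
    (hM : IsECSt t (t + 1) M) :
    NonSimple (stTheory (t + 1) M) ∧ HasTP2 (stTheory (t + 1) M) ∧
      (∀ S : CTheory, HasTP2 S → KLe (stTheory (t + 1) M) S) ∧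
      ∀ (I : Type) [Infinite I] (D : Ultrafilter I), Regular D →
        ∀ (M' : Type) [(Lst (t + 1)).Structure M'] [Nonempty M'],
          M' ⊨ (Lst (t + 1)).completeTheory M →
          (Saturated (Lst (t + 1)) (Pow D M') #I ↔ GoodEq D I) :=
  st_main t ht M hM

end Pool.Agent.Results.MP_9a7643_lc.SteinerClass
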